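import Pool.Agent.H.MP_e2e219_gt.A

set_option autoImplicit false

namespace Pool.Agent.Results.MP_e2e219_gt.NotProductive

open Set

/-- strong d-space; `x ≤ y` is `x ∈ closure {y}`. -/
def StrongD (X : Type) [TopologicalSpace X] : Prop :=
  T0Space X ∧ ∀ D : Set X, D.Nonempty → DirectedOn (fun x y => x ∈ closure {y}) D →
    ∀ (x : X) (U : Set X), IsOpen U →
      (⋂ d ∈ D, {y | d ∈ closure {y}}) ∩ {y | x ∈ closure {y}} ⊆ U →
      ∃ d ∈ D, {y | d ∈ closure {y}} ∩ {y | x ∈ closure {y}} ⊆ U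

theorem result : ∃ (X : Bool → Type) (_ : ∀ i, TopologicalSpace (X i)),
    (∀ i, StrongD (X i)) ∧ ¬ StrongD (∀ i, X i) := by
  open H.MP_e2e219_gt in
  refine ⟨fun _ => YY, inferInstance, fun _ => SD_Y, bad (fun f => f true) (fun f => f false)
    (continuous_apply _) (continuous_apply _) (fun u v i => cond i u v) (fun _ _ => rfl)
    (fun _ _ => rfl) fun u v u' v' h1 h2 => ?_⟩
  rw [← specializes_iff_mem_closure, specializes_pi]
  intro i
  rw [specializes_iff_mem_closure, H.MP_e2e219_gt.cl_iff]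
  cases i
  · exact h2
  · exact h1

end Pool.Agent.Results.MP_e2e219_gt.NotProductive
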